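import Pool.Agent.H44.BC4

open Filter Pool.Agent.H44.BC

theorem Pool.Agent.Results.MP_8d021f_pr.Budget.result :
    ∃ P : Property, IsoClosed P ∧ Increasing P ∧ BddDeg P ∧
      ∃ τ : ℕ → ℝ,
        (∃ c C : ℝ, 0 < c ∧ 0 < C ∧
          Aas (fun n σ => c * τ n ≤ hit (P n) σ ∧ (hit (P n) σ : ℝ) ≤ C * τ n)) ∧
        (∀ n, τ n = n) ∧
        ∃ t b : ℕ → ℕ, (fun n => (t n : ℝ)) =Θ[atTop] τ ∧
          (fun n => (b n : ℝ)) =o[atTop] (fun n => (t n : ℝ) / Real.log n) ∧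
          Successful P t b := by
  refine ⟨PP, ?_, ?_, ⟨3, ?_⟩, fun n => n, ⟨1 / 2 ^ 40, 1 / 8, by norm_num, by norm_num, hit_aas⟩,
    fun _ => rfl, fun n => n / 8, fun n => ss n * mm n, theta, small, succ_ok⟩
  · rintro n G H ⟨φ⟩ h; exact Has.iso φ h
  · intro n G H hle h; exact Has.mono hle h
  · intro n G h v; exact Has.deg h v
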